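import Pool.Agent.X52.PGMain

/-!
# MP_da28a5_co, Q1: every `PG(r-1, q)` with `r ≥ 3` is indecomposable

For a matroid `N` on a (finite) type `E` the matroid polytope is the convex hull of the indicator
vectors of its bases. A matroid subdivision of the matroid polytope of `M` is given by the
matroids of its cells: their polytopes cover exactly the polytope of `M`, and any two of them
meet in a common (possibly empty) face. Regularity is *not* assumed, and the family may consist of
all cells or only of the maximal ones. We prove that, for every finite field `K` and every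
`r ≥ 3`, every matroid subdivision of the polytope of the projective geometry of `K ^ r` has
exactly one maximal cell, the whole polytope.
-/

set_option autoImplicit false

open scoped LinearAlgebra.Projectivization

namespace Pool.Agent.Results.MP_da28a5_co.Indecomposable

/-- The matroid polytope of `M`: the convex hull of the indicator vectors of the bases. -/
def matroidPolytope {E : Type} (M : Matroid E) : Set (E → ℝ) :=
  convexHull ℝ {x | ∃ B, M.IsBase B ∧ x = B.indicator (fun _ => 1)}

/-- `C` is the set of the matroids of the cells (all cells, or at least the maximal ones) of a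
matroid subdivision of the matroid polytope of `M`: the cells have the ground set of `M`, their
union is the polytope of `M`, and any two cells meet in a common face (`IsExtreme` for a convex
subset of a polytope means being a face of it; the intersection may be empty). The vertices of the
cells are then automatically vertices of the polytope of `M`. -/
structure IsMatroidSubdivision {E : Type} (M : Matroid E) (C : Set (Matroid E)) : Prop where
  ground : ∀ N ∈ C, N.E = M.E
  cover : ⋃ N ∈ C, matroidPolytope N = matroidPolytope M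
  face : ∀ N ∈ C, ∀ N' ∈ C,
    IsExtreme ℝ (matroidPolytope N) (matroidPolytope N ∩ matroidPolytope N')

/-- `N` is the matroid of a maximal cell of `C`. -/
def IsMaximalCell {E : Type} (C : Set (Matroid E)) (N : Matroid E) : Prop :=
  N ∈ C ∧ ∀ N' ∈ C, matroidPolytope N ⊆ matroidPolytope N' → N' = N

/-- `M` is indecomposable: every matroid subdivision of its polytope is trivial, i.e. its only
maximal cell is the whole polytope. -/
def IsIndecomposable {E : Type} (M : Matroid E) : Prop :=
  ∀ C, IsMatroidSubdivision M C → ∀ N, IsMaximalCell C N ↔ N = M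

theorem card_le_of_span {K : Type} [Field K] {V : Type} [AddCommGroup V] [Module K V]
    [FiniteDimensional K V] {P : Type} {vec : P → V} {I J : Finset P}
    (hI : LinearIndepOn K vec (I : Set P)) (hJ : LinearIndepOn K vec (J : Set P))
    (h : ∀ e ∈ J, vec e ∈ Submodule.span K (vec '' (I : Set P))) : J.card ≤ I.card := by
  classical
  have h1 : Module.finrank K (Submodule.span K (Set.range (fun x : (I : Set P) => vec x)))
      = I.card := by
    rw [finrank_span_eq_card hI]; simp
  have h2 : Module.finrank K (Submodule.span K (Set.range (fun x : (J : Set P) => vec x)))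
      = J.card := by
    rw [finrank_span_eq_card hJ]; simp
  rw [← Set.image_eq_range] at h1 h2
  rw [← h1, ← h2]
  apply Submodule.finrank_mono
  rw [Submodule.span_le]
  rintro _ ⟨t, ht, rfl⟩
  exact h t ht

/-- The projective geometry of `K ^ r`, for a finite field `K` with `q` elements this is
`PG(r-1, q)`: the ground set is the set of all points (one-dimensional subspaces) of `K ^ r`, and
a set of points is independent iff representative vectors are linearly independent. -/
noncomputable def PG (K : Type) [Field K] [Finite K] (r : ℕ) : Matroid (ℙ K (Fin r → K)) :=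
  (IndepMatroid.ofFinite (E := Set.univ) Set.finite_univ
    (fun I => LinearIndepOn K (fun p : ℙ K (Fin r → K) => p.rep) I)
    (linearIndepOn_empty K _)
    (fun _ _ hJ hIJ => hJ.mono hIJ)
    (by
      classical
      intro I J hI hJ hlt
      lift I to Finset (ℙ K (Fin r → K)) using Set.toFinite I
      lift J to Finset (ℙ K (Fin r → K)) using Set.toFinite J
      rw [Set.ncard_coe_finset, Set.ncard_coe_finset] at hlt
      by_contra hcon
      push Not at hcon
      apply absurd (card_le_of_span hI hJ ?_) (not_le.2 hlt)
      intro e he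
      by_contra hes
      have heI : e ∉ (I : Set (ℙ K (Fin r → K))) := fun h => hes (Submodule.subset_span ⟨e, h, rfl⟩)
      exact hcon e he heI ((linearIndepOn_insert heI).2 ⟨hI, hes⟩))
    (fun _ _ => Set.subset_univ _)).matroid

theorem PG_indep (K : Type) [Field K] [Finite K] (r : ℕ) (I : Set (ℙ K (Fin r → K))) :
    (PG K r).Indep I ↔ LinearIndepOn K (fun p : ℙ K (Fin r → K) => p.rep) I := Iff.rfl

theorem PG_E (K : Type) [Field K] [Finite K] (r : ℕ) : (PG K r).E = Set.univ := rfl

open Pool.Agent.X52.PG in
theorem geo (K : Type) [Field K] (r : ℕ) (p0 : ℙ K (Fin r → K)) :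
    Geo K (fun p : ℙ K (Fin r → K) => p.rep)
      (fun v => open Classical in if h : v ≠ 0 then Projectivization.mk K v h else p0) := by
  refine ⟨fun x => x.rep_nonzero, ?_, ?_⟩
  · intro v hv
    obtain ⟨a, ha⟩ := Projectivization.exists_smul_eq_mk_rep K v hv
    refine ⟨(a : K), a.ne_zero, ?_⟩
    rw [dif_pos hv, ← ha]; rfl
  · intro x y c _ hxy
    rw [← x.mk_rep, ← y.mk_rep, Projectivization.mk_eq_mk_iff']
    exact ⟨c, hxy.symm⟩

open Pool.Agent.X52.PG in
theorem polytope_eq {E : Type} [Fintype E] [DecidableEq E] (N : Matroid E) :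
    matroidPolytope N = poly (fun B : Finset E => N.IsBase (B : Set E)) := by
  classical
  unfold matroidPolytope poly
  congr 1
  ext x
  simp only [Set.mem_ofPred_eq]
  have hind : ∀ B : Finset E, (B : Set E).indicator (fun _ => (1:ℝ)) = ind B := by
    intro B; ext e; simp [Set.indicator_apply, ind]
  constructor
  · rintro ⟨B, hB, rfl⟩
    refine ⟨B.toFinset, by rw [Set.coe_toFinset]; exact hB, ?_⟩
    rw [← hind, Set.coe_toFinset]
  · rintro ⟨B, hB, rfl⟩
    exact ⟨B, hB, (hind B).symm⟩

open Pool.Agent.X52.PG in
theorem eq_of_subset {E : Type} [Fintype E] [DecidableEq E] {N M : Matroid E} (hE : N.E = M.E)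
    (h1 : matroidPolytope N ⊆ matroidPolytope M) (h2 : matroidPolytope M ⊆ matroidPolytope N) :
    N = M := by
  classical
  rw [polytope_eq, polytope_eq] at h1 h2
  apply Matroid.ext_isBase hE
  intro B _
  constructor
  · intro hB
    have h : N.IsBase ((B.toFinset : Finset E) : Set E) := by rw [Set.coe_toFinset]; exact hB
    have := of_ind_mem (h1 (ind_mem (N := fun B : Finset E => N.IsBase (B : Set E)) h))
    rwa [Set.coe_toFinset] at this
  · intro hB
    have h : M.IsBase ((B.toFinset : Finset E) : Set E) := by rw [Set.coe_toFinset]; exact hB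
    have := of_ind_mem (h2 (ind_mem (N := fun B : Finset E => M.IsBase (B : Set E)) h))
    rwa [Set.coe_toFinset] at this

open Pool.Agent.X52.PG in
theorem PG_isBase (K : Type) [Field K] [Finite K] {r : ℕ} (hr : 0 < r)
    (B : Finset (ℙ K (Fin r → K))) :
    (PG K r).IsBase (B : Set (ℙ K (Fin r → K)))
      ↔ PB K (fun p : ℙ K (Fin r → K) => p.rep) r B := by
  classical
  letI : Fintype (ℙ K (Fin r → K)) := Fintype.ofFinite _
  have hfr : Module.finrank K (Fin r → K) = r := by simp
  have h1 : ∀ A : Finset (ℙ K (Fin r → K)), PB K (fun p : ℙ K (Fin r → K) => p.rep) r A →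
      (PG K r).IsBase (A : Set (ℙ K (Fin r → K))) := by
    intro A hA
    rw [Matroid.isBase_iff_maximal_indep, maximal_subset_iff]
    refine ⟨hA.1, ?_⟩
    intro J hJ hAJ
    lift J to Finset (ℙ K (Fin r → K)) using Set.toFinite J
    have h2 : J.card ≤ A.card := by
      apply card_le_of_span hA.1 hJ
      intro e _
      rw [span_top hfr hA]; trivial
    have h3 : A ⊆ J := by exact_mod_cast hAJ
    rw [Finset.eq_of_subset_of_card_le h3 h2]
  constructor
  · intro hB
    refine ⟨hB.indep, ?_⟩
    haveI : Nonempty (Fin r) := ⟨⟨0, hr⟩⟩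
    haveI : Nontrivial (Fin r → K) := inferInstance
    obtain ⟨p0⟩ : Nonempty (ℙ K (Fin r → K)) := inferInstance
    obtain ⟨A, hA, -⟩ := exists_base hfr (geo K r p0) p0
    have := hB.ncard_eq_ncard_of_isBase (h1 A hA)
    rw [Set.ncard_coe_finset, Set.ncard_coe_finset] at this
    rw [this]; exact hA.2
  · exact h1 B

open Pool.Agent.X52.PG in
/-- **Q1 of MP_da28a5_co.** For every finite field `K` and every `r ≥ 3` the projective geometry
of `K ^ r` is indecomposable. -/
theorem result (K : Type) [Field K] [Finite K] (r : ℕ) (hr : 3 ≤ r) :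
    IsIndecomposable (PG K r) := by
  classical
  letI : Fintype (ℙ K (Fin r → K)) := Fintype.ofFinite _
  have hfr : Module.finrank K (Fin r → K) = r := by simp
  intro C hC
  have hsub : ∀ N ∈ C, matroidPolytope N ⊆ matroidPolytope (PG K r) := by
    intro N hN
    rw [← hC.cover]
    exact Set.subset_biUnion_of_mem hN
  -- the translation to families of finite sets
  set C' : Set (Finset (ℙ K (Fin r → K)) → Prop) :=
    {F | ∃ N ∈ C, F = fun B : Finset (ℙ K (Fin r → K)) => N.IsBase (B : Set (ℙ K (Fin r → K)))}
    with hC'
  have hPG : (fun B : Finset (ℙ K (Fin r → K)) => (PG K r).IsBase (B : Set (ℙ K (Fin r → K))))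
      = PB K (fun p : ℙ K (Fin r → K) => p.rep) r := by
    funext B; exact propext (PG_isBase K (by omega) B)
  have hpoly : matroidPolytope (PG K r) = poly (PB K (fun p : ℙ K (Fin r → K) => p.rep) r) := by
    rw [polytope_eq, hPG]
  have S : Subd r (PB K (fun p : ℙ K (Fin r → K) => p.rep) r) C' := by
    refine ⟨fun B hB => hB.2, ?_, ?_, ?_, ?_⟩
    · rintro F ⟨N, hN, rfl⟩ B hB
      have h1 : ind B ∈ matroidPolytope N := by
        rw [polytope_eq]
        exact ind_mem (N := fun B : Finset (ℙ K (Fin r → K)) =>
          N.IsBase (B : Set (ℙ K (Fin r → K)))) hB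
      have h2 := hsub N hN h1
      rw [hpoly] at h2
      exact of_ind_mem h2
    · rintro F ⟨N, hN, rfl⟩ A B hA hB e heA heB
      obtain ⟨y, hy, hyN⟩ := Matroid.IsBase.exchange hA hB (e := e)
        ⟨by exact_mod_cast heA, by exact_mod_cast heB⟩
      refine ⟨y, by exact_mod_cast hy.1, by exact_mod_cast hy.2, ?_⟩
      show N.IsBase ((insert y (A.erase e) : Finset (ℙ K (Fin r → K))) : Set (ℙ K (Fin r → K)))
      rw [Finset.coe_insert, Finset.coe_erase]; exact hyN
    · intro x hx
      rw [← hpoly, ← hC.cover] at hx
      simp only [Set.mem_iUnion] at hx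
      obtain ⟨N, hN, hxN⟩ := hx
      exact ⟨_, ⟨N, hN, rfl⟩, by rw [← polytope_eq]; exact hxN⟩
    · rintro F ⟨N, hN, rfl⟩ F' ⟨N', hN', rfl⟩ A B hA hB hx
      rw [← polytope_eq] at hx
      have hA' : ind A ∈ matroidPolytope N := by
        rw [polytope_eq]
        exact ind_mem (N := fun B : Finset (ℙ K (Fin r → K)) =>
          N.IsBase (B : Set (ℙ K (Fin r → K)))) hA
      have hB' : ind B ∈ matroidPolytope N := by
        rw [polytope_eq]
        exact ind_mem (N := fun B : Finset (ℙ K (Fin r → K)) =>
          N.IsBase (B : Set (ℙ K (Fin r → K)))) hB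
      have hxN : (1/2 : ℝ) • ind A + (1/2 : ℝ) • ind B ∈ matroidPolytope N :=
        convex_convexHull ℝ _ hA' hB' (by norm_num) (by norm_num) (by norm_num)
      have hseg : (1/2 : ℝ) • ind A + (1/2 : ℝ) • ind B ∈ openSegment ℝ (ind A) (ind B) :=
        ⟨1/2, 1/2, by norm_num, by norm_num, by norm_num, rfl⟩
      have hface := hC.face N hN N' hN'
      have h1 := hface.left_mem_of_mem_openSegment hA' hB' ⟨hxN, hx⟩ hseg
      have h2 := hface.right_mem_of_mem_openSegment hA' hB' ⟨hxN, hx⟩ hseg
      have h3 := h1.2
      have h4 := h2.2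
      rw [polytope_eq] at h3 h4
      exact ⟨of_ind_mem h3, of_ind_mem h4⟩
  haveI : Nonempty (Fin r) := ⟨⟨0, by omega⟩⟩
  haveI : Nontrivial (Fin r → K) := inferInstance
  obtain ⟨p0⟩ : Nonempty (ℙ K (Fin r → K)) := inferInstance
  obtain ⟨F, ⟨N0, hN0, rfl⟩, hall⟩ := pg_main hfr (geo K r p0) S hr
  have hN0eq : N0 = PG K r := by
    apply eq_of_subset (hC.ground N0 hN0) (hsub N0 hN0)
    rw [hpoly, polytope_eq]
    apply convexHull_mono
    rintro x ⟨B, hB, rfl⟩
    exact ⟨B, hall B hB, rfl⟩
  have hmem : PG K r ∈ C := hN0eq ▸ hN0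
  intro N
  constructor
  · rintro ⟨hN, hmax⟩
    exact (hmax _ hmem (hsub N hN)).symm
  · rintro rfl
    refine ⟨hmem, ?_⟩
    intro N' hN' hle
    exact eq_of_subset (hC.ground N' hN') (hsub N' hN') hle

end Pool.Agent.Results.MP_da28a5_co.Indecomposable
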